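import Mathlib.LinearAlgebra.FiniteDimensional.Lemmas
import Mathlib.LinearAlgebra.Dimension.Constructions
import Mathlib.Algebra.Order.BigOperators.Ring.Finset
import Mathlib.Algebra.Order.Field.Basic
import Mathlib.Tactic

set_option autoImplicit false
set_option linter.unusedSectionVars false

/-! An existential-universal definition of timelike relatedness from lightlike relatedness. -/

namespace Pool.Agent.Results.MP_446ff5_lc.ExistsForall

universe u

/-! ### formulas -/

/-- Quantifier-free formulas with equality in the language with one binary relation symbol `λ`,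
with variables from `V`. -/
inductive QF (V : Type) : Type
  | lam : V → V → QF V
  | eq : V → V → QF V
  | not : QF V → QF V
  | and : QF V → QF V → QF V

/-- Truth of a quantifier-free formula, where `R` interprets the symbol `λ`. -/
def QF.Holds {P : Type*} {V : Type} (R : P → P → Prop) (ρ : V → P) : QF V → Prop
  | .lam i j => R (ρ i) (ρ j)
  | .eq i j => ρ i = ρ j
  | .not φ => ¬ φ.Holds R ρ
  | .and φ ψ => φ.Holds R ρ ∧ ψ.Holds R ρ

/-- An existential-universal formula `∃ u₁ … u_k ∀ v₁ … v_m ψ` with two free variables. -/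
structure EAFormula where
  k : ℕ
  m : ℕ
  matrix : QF (Fin 2 ⊕ Fin k ⊕ Fin m)

/-- Truth of an existential-universal formula at `x, y`. -/
def EAFormula.Holds {P : Type*} (R : P → P → Prop) (φ : EAFormula) (x y : P) : Prop :=
  ∃ u : Fin φ.k → P, ∀ v : Fin φ.m → P,
    φ.matrix.Holds R (Sum.elim ![x, y] (Sum.elim u v))

/-! ### Minkowski spacetime -/

section mink

variable {F : Type u} [Field F] [LinearOrder F] [IsStrictOrderedRing F] {m : ℕ}

/-- The Minkowski form on `F^(m+1)`; the coordinate `0` is time. -/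
def mu (x y : Fin (m + 1) → F) : F := (x 0 - y 0) ^ 2 - ∑ i : Fin m, (x i.succ - y i.succ) ^ 2

/-- lightlike relatedness -/
def Light (x y : Fin (m + 1) → F) : Prop := mu x y = 0 ∧ x ≠ y

/-- timelike relatedness -/
def Timelike (x y : Fin (m + 1) → F) : Prop := 0 < mu x y

/-- the bilinear form -/
def B (a b : Fin (m + 1) → F) : F := a 0 * b 0 - ∑ i : Fin m, a i.succ * b i.succ

theorem B_comm (a b : Fin (m + 1) → F) : B a b = B b a := by
  unfold B
  rw [mul_comm]
  congr 1
  exact Finset.sum_congr rfl fun i _ => mul_comm _ _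

theorem B_add_left (a b c : Fin (m + 1) → F) : B (a + b) c = B a c + B b c := by
  unfold B
  have : ∑ i : Fin m, (a + b) i.succ * c i.succ =
      ∑ i : Fin m, a i.succ * c i.succ + ∑ i : Fin m, b i.succ * c i.succ := by
    rw [← Finset.sum_add_distrib]
    exact Finset.sum_congr rfl fun i _ => by rw [Pi.add_apply]; ring
  rw [this, Pi.add_apply]
  ring

theorem B_smul_left (t : F) (a c : Fin (m + 1) → F) : B (t • a) c = t * B a c := by
  unfold B
  have : ∑ i : Fin m, (t • a) i.succ * c i.succ = t * ∑ i : Fin m, a i.succ * c i.succ := by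
    rw [Finset.mul_sum]
    exact Finset.sum_congr rfl fun i _ => by rw [Pi.smul_apply, smul_eq_mul]; ring
  rw [this, Pi.smul_apply, smul_eq_mul]
  ring

theorem B_neg_left (a c : Fin (m + 1) → F) : B (-a) c = - B a c := by
  have := B_smul_left (-1 : F) a c
  rwa [neg_one_smul, neg_one_mul] at this

theorem B_sub_left (a b c : Fin (m + 1) → F) : B (a - b) c = B a c - B b c := by
  rw [sub_eq_add_neg, B_add_left, B_neg_left]
  ring

theorem B_add_right (a b c : Fin (m + 1) → F) : B c (a + b) = B c a + B c b := by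
  rw [B_comm, B_add_left, B_comm a, B_comm b]

theorem B_smul_right (t : F) (a c : Fin (m + 1) → F) : B c (t • a) = t * B c a := by
  rw [B_comm, B_smul_left, B_comm]

theorem B_sub_right (a b c : Fin (m + 1) → F) : B c (a - b) = B c a - B c b := by
  rw [B_comm, B_sub_left, B_comm a, B_comm b]

theorem B_zero_left (a : Fin (m + 1) → F) : B 0 a = 0 := by
  have := B_smul_left (0 : F) 0 a
  rwa [zero_smul, zero_mul] at this

theorem mu_eq (x y : Fin (m + 1) → F) : mu x y = B (x - y) (x - y) := by
  unfold mu B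
  simp only [Pi.sub_apply, pow_two]

theorem mu_comm (x y : Fin (m + 1) → F) : mu x y = mu y x := by
  rw [mu_eq, mu_eq]
  simp only [B_sub_left, B_sub_right, B_comm y x]
  ring

/-- A vector with time coordinate `0`. -/
theorem nonpos_of {z : Fin (m + 1) → F} (h : z 0 = 0) :
    B z z ≤ 0 ∧ (B z z = 0 → z = 0) := by
  have h1 : B z z = - ∑ i : Fin m, z i.succ * z i.succ := by
    unfold B
    rw [h]
    ring
  have h2 : 0 ≤ ∑ i : Fin m, z i.succ * z i.succ :=
    Finset.sum_nonneg fun i _ => mul_self_nonneg _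
  refine ⟨by rw [h1]; linarith, fun h3 => ?_⟩
  rw [h1, neg_eq_zero, Finset.sum_eq_zero_iff_of_nonneg (fun i _ => mul_self_nonneg _)] at h3
  funext i
  induction i using Fin.cases with
  | zero => exact h
  | succ i => exact mul_self_eq_zero.1 (h3 i (Finset.mem_univ _))

theorem time_ne {p : Fin (m + 1) → F} (h : 0 ≤ B p p) (hp : p ≠ 0) : p 0 ≠ 0 := by
  intro h0
  exact hp ((nonpos_of h0).2 (le_antisymm (nonpos_of h0).1 h))

/-- Orthogonal null vectors are parallel. -/
theorem parallel {w d : Fin (m + 1) → F} (hw : B w w = 0) (hd : B d d = 0) (hwd : B w d = 0)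
    (h0 : d ≠ 0) : ∃ t : F, w = t • d := by
  have hd0 := time_ne hd.ge h0
  refine ⟨w 0 / d 0, ?_⟩
  have hz : (w - (w 0 / d 0) • d) 0 = 0 := by
    simp only [Pi.sub_apply, Pi.smul_apply, smul_eq_mul]
    field_simp
    ring
  have h1 := (nonpos_of hz).2 (by
    simp only [B_sub_left, B_sub_right, B_smul_left, B_smul_right, B_comm d w, hw, hd, hwd]
    ring)
  exact sub_eq_zero.1 h1

/-- A nonzero vector orthogonal to a timelike vector is spacelike. -/
theorem orth_time {t w : Fin (m + 1) → F} (ht : 0 < B t t) (hw : B t w = 0) (h0 : w ≠ 0) :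
    B w w < 0 := by
  have ht0 : t 0 ≠ 0 := time_ne ht.le (by rintro rfl; rw [B_zero_left] at ht; exact lt_irrefl _ ht)
  set c := w 0 / t 0 with hc
  have hz : (w - c • t) 0 = 0 := by
    simp only [Pi.sub_apply, Pi.smul_apply, smul_eq_mul, hc]
    field_simp
    ring
  have he : B (w - c • t) (w - c • t) = B w w + c ^ 2 * B t t := by
    simp only [B_sub_left, B_sub_right, B_smul_left, B_smul_right, B_comm w t, hw]
    ring
  obtain ⟨h1, h2⟩ := nonpos_of hz
  rw [he] at h1 h2
  have h3 : 0 ≤ c ^ 2 * B t t := mul_nonneg (sq_nonneg _) ht.le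
  rcases lt_or_eq_of_le (show B w w ≤ 0 by linarith) with h | h
  · exact h
  · exfalso
    have h4 : c ^ 2 * B t t = 0 := by linarith
    have h5 : c = 0 := by
      rcases mul_eq_zero.1 h4 with h5 | h5
      · exact pow_eq_zero_iff (two_ne_zero) |>.1 h5
      · exact absurd h5 ht.ne'
    have h6 := h2 (by rw [h, h4, add_zero])
    rw [h5, zero_smul, sub_zero] at h6
    exact h0 h6

theorem sign_pos {p q : Fin (m + 1) → F} (hp : B p p = 0) (hq : B q q = 0) (h : 0 < B p q) :
    0 < p 0 * q 0 := by
  have hp1 : p ≠ 0 := by rintro rfl; rw [B_zero_left] at h; exact lt_irrefl _ h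
  have hq1 : q ≠ 0 := by rintro rfl; rw [B_comm, B_zero_left] at h; exact lt_irrefl _ h
  have hp0 := time_ne hp.ge hp1
  have hq0 := time_ne hq.ge hq1
  have hz : (q - (q 0 / p 0) • p) 0 = 0 := by
    simp only [Pi.sub_apply, Pi.smul_apply, smul_eq_mul]
    field_simp
    ring
  have he : B (q - (q 0 / p 0) • p) (q - (q 0 / p 0) • p) = - (2 * (q 0 / p 0) * B p q) := by
    simp only [B_sub_left, B_sub_right, B_smul_left, B_smul_right, B_comm q p, hp, hq]
    ring
  have h1 := (nonpos_of hz).1
  rw [he] at h1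
  have h2 : 0 ≤ (q 0 / p 0) * B p q := by linarith
  have h3 : 0 ≤ q 0 / p 0 := by
    by_contra hlt
    have := mul_neg_of_neg_of_pos (not_le.1 hlt) h
    linarith
  have h4 : p 0 * q 0 = (q 0 / p 0) * (p 0) ^ 2 := by
    field_simp
  rw [h4]
  have h5 : q 0 / p 0 ≠ 0 := div_ne_zero hq0 hp0
  exact mul_pos (lt_of_le_of_ne h3 h5.symm) (by positivity)

theorem sign_neg {p q : Fin (m + 1) → F} (hp : B p p = 0) (hq : B q q = 0) (h : B p q < 0) :
    p 0 * q 0 < 0 := by
  have h1 : 0 < B p (-q) := by
    have : B p (-q) = - B p q := by rw [B_comm, B_neg_left, B_comm]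
    rw [this]
    linarith
  have h2 : B (-q) (-q) = 0 := by
    rw [B_neg_left, B_comm, B_neg_left, hq]
    ring
  have h3 := sign_pos hp h2 h1
  rw [Pi.neg_apply] at h3
  linarith

/-- If `x, y` are timelike related and `u` is spacelike related to both of them, then no point is
lightlike related to all three. -/
theorem no_common {x y u v : Fin (m + 1) → F} (hxy : 0 < mu x y) (hxu : mu x u < 0)
    (hyu : mu y u < 0) (hvx : mu v x = 0) (hvy : mu v y = 0) (hvu : mu v u = 0) : False := by
  rw [mu_comm, mu_eq] at hvx hvy hvu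
  rw [mu_eq] at hxy hxu hyu
  have e1 : x - y = (x - v) - (y - v) := by abel
  have e2 : x - u = (x - v) - (u - v) := by abel
  have e3 : y - u = (y - v) - (u - v) := by abel
  rw [e1] at hxy
  rw [e2] at hxu
  rw [e3] at hyu
  set p := x - v
  set q := y - v
  set r := u - v
  simp only [B_sub_left, B_sub_right, hvx, hvy, hvu, B_comm q p, B_comm r p, B_comm r q]
    at hxy hxu hyu
  have h1 := sign_neg (p := p) (q := q) hvx hvy (by linarith)
  have h2 := sign_pos (p := p) (q := r) hvx hvu (by linarith)
  have h3 := sign_pos (p := q) (q := r) hvy hvu (by linarith)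
  have h4 : 0 < (p 0 * q 0) * (r 0) ^ 2 := by
    have := mul_pos h2 h3
    linarith [this, show p 0 * r 0 * (q 0 * r 0) = (p 0 * q 0) * (r 0) ^ 2 by ring]
  have h5 : (p 0 * q 0) * (r 0) ^ 2 ≤ 0 := mul_nonpos_of_nonpos_of_nonneg h1.le (sq_nonneg _)
  linarith

/-- the time unit vector -/
def e0 : Fin (m + 1) → F := Pi.single 0 1

theorem B_e0 (a : Fin (m + 1) → F) : B e0 a = a 0 := by
  unfold B e0
  rw [Pi.single_eq_same, one_mul]
  have : ∑ i : Fin m, (Pi.single 0 1 : Fin (m + 1) → F) i.succ * a i.succ = 0 := by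
    apply Finset.sum_eq_zero
    intro i _
    rw [Pi.single_eq_of_ne (Fin.succ_ne_zero i), zero_mul]
  rw [this, sub_zero]

theorem B_e0_e0 : B (e0 : Fin (m + 1) → F) e0 = 1 := by
  rw [B_e0, e0, Pi.single_eq_same]

/-- In dimension at least three there is a nonzero vector orthogonal to two given ones. -/
theorem exists_orth (hm : 2 ≤ m) (a b : Fin (m + 1) → F) : ∃ w, w ≠ 0 ∧ B a w = 0 ∧ B b w = 0 := by
  let f : (Fin (m + 1) → F) →ₗ[F] F × F :=
    { toFun := fun w => (B a w, B b w)
      map_add' := fun x y => by simp [B_add_right]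
      map_smul' := fun t x => by simp [B_smul_right] }
  have h := LinearMap.ker_ne_bot_of_finrank_lt (f := f) (by
    rw [Module.finrank_prod, Module.finrank_self, Module.finrank_fin_fun]
    omega)
  rw [Submodule.ne_bot_iff] at h
  obtain ⟨w, hw, hw0⟩ := h
  have := LinearMap.mem_ker.1 hw
  exact ⟨w, hw0, congrArg Prod.fst this, congrArg Prod.snd this⟩

/-- A null vector orthogonal to a given spacelike vector. -/
theorem null_orth (hm : 2 ≤ m) (hE : ∀ a : F, 0 ≤ a → IsSquare a) {a : Fin (m + 1) → F}
    (ha : B a a < 0) : ∃ d, d ≠ 0 ∧ B d d = 0 ∧ B a d = 0 := by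
  set e' := e0 - (B e0 a / B a a) • a with he'
  have h1 : B e' a = 0 := by
    rw [he', B_sub_left, B_smul_left]
    have := ha.ne
    field_simp
    ring
  have h2 : B e' e' = 1 - (B e0 a) ^ 2 / B a a := by
    rw [he']
    simp only [B_sub_left, B_sub_right, B_smul_left, B_smul_right, B_e0_e0, B_comm a e0]
    have := ha.ne
    field_simp
    ring
  have h3 : 0 < B e' e' := by
    rw [h2]
    have : (B e0 a) ^ 2 / B a a ≤ 0 := div_nonpos_of_nonneg_of_nonpos (sq_nonneg _) ha.le
    linarith
  obtain ⟨f, hf0, hf1, hf2⟩ := exists_orth hm a e'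
  have hf3 := orth_time h3 hf2 hf0
  obtain ⟨s, hs⟩ := hE (- B e' e' / B f f) (div_nonneg_of_nonpos (by linarith) hf3.le)
  refine ⟨e' + s • f, ?_, ?_, ?_⟩
  · intro h
    have : B (e' + s • f) e' = 0 := by rw [h, B_zero_left]
    rw [B_add_left, B_smul_left, B_comm f e', hf2, mul_zero, add_zero] at this
    exact h3.ne' this
  · simp only [B_add_left, B_add_right, B_smul_left, B_smul_right, B_comm f e', hf2]
    have h4 : s * (s * B f f) = - B e' e' := by
      rw [← mul_assoc, ← hs]
      exact div_mul_cancel₀ _ hf3.ne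
    linear_combination h4
  · rw [B_add_right, B_smul_right, B_comm a e', h1, hf1, mul_zero, add_zero]

/-- Three noncollinear pairwise spacelike related points (the first of them is `0`) are lightlike
related to a common point. -/
theorem circum (hm : 2 ≤ m) (hE : ∀ a : F, 0 ≤ a → IsSquare a) {a b : Fin (m + 1) → F}
    (ha : B a a < 0) (hb : B b b < 0) (hab : B (a - b) (a - b) < 0) (hlin : ∀ t : F, b ≠ t • a) :
    ∃ v, B v v = 0 ∧ 2 * B v a = B a a ∧ 2 * B v b = B b b := by
  set A := B a a with hA
  set C := B b b with hC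
  set G := B a b with hG
  have hGc : B b a = G := B_comm b a
  have hs : A + C - 2 * G < 0 := by
    have : B (a - b) (a - b) = A + C - 2 * G := by
      simp only [B_sub_left, B_sub_right, hGc, ← hA, ← hC, ← hG]
      ring
    rwa [this] at hab
  have hA0 := ha.ne
  set D := A * C - G ^ 2 with hD
  -- the case of a nondegenerate plane
  have nondeg : D ≠ 0 → (∃ w, B a w = 0 ∧ B b w = 0 ∧ 0 < D * B w w) →
      ∃ v, B v v = 0 ∧ 2 * B v a = A ∧ 2 * B v b = C := by
    rintro hD0 ⟨w, hwa, hwb, hw⟩
    have hw0 : B w w ≠ 0 := by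
      intro h
      rw [h, mul_zero] at hw
      exact lt_irrefl _ hw
    set α := C * (A - G) / (2 * D) with hα
    set β := A * (C - G) / (2 * D) with hβ
    have hAC : 0 < A * C := mul_pos_of_neg_of_neg ha hb
    obtain ⟨s, hs'⟩ := hE (- (A * C * (A + C - 2 * G) / (4 * D)) / B w w) (by
      have h1 : - (A * C * (A + C - 2 * G) / (4 * D)) / B w w =
          (- (A * C * (A + C - 2 * G))) / (4 * (D * B w w)) := by
        field_simp
      rw [h1]
      apply div_nonneg
      · have := mul_neg_of_pos_of_neg hAC hs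
        linarith
      · linarith)
    have e1 : s * s * B w w = - (A * C * (A + C - 2 * G) / (4 * D)) := by
      rw [← hs']
      exact div_mul_cancel₀ _ hw0
    have e2 : α * A + β * G = A / 2 := by
      rw [hα, hβ]
      field_simp
      rw [hD]
      ring
    have e3 : α * G + β * C = C / 2 := by
      rw [hα, hβ]
      field_simp
      rw [hD]
      ring
    refine ⟨α • a + β • b + s • w, ?_, ?_, ?_⟩
    · simp only [B_add_left, B_add_right, B_smul_left, B_smul_right, B_comm w a, B_comm w b, hwa,
        hwb, hGc, ← hA, ← hC, ← hG]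
      have e4 : α * A / 2 + β * C / 2 = A * C * (A + C - 2 * G) / (4 * D) := by
        rw [hα, hβ]
        field_simp
        ring
      linear_combination e1 + α * e2 + β * e3 + e4
    · simp only [B_add_left, B_smul_left, B_comm w a, hwa, hGc, ← hA]
      linear_combination 2 * e2
    · simp only [B_add_left, B_smul_left, B_comm w b, hwb, ← hC, ← hG]
      linear_combination 2 * e3
  rcases lt_trichotomy D 0 with hlt | heq | hgt
  · -- Lorentzian plane
    obtain ⟨w, hw0, hwa, hwb⟩ := exists_orth hm a b
    refine nondeg hlt.ne ⟨w, hwa, hwb, ?_⟩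
    have ht : B (b - (G / A) • a) (b - (G / A) • a) = D / A := by
      simp only [B_sub_left, B_sub_right, B_smul_left, B_smul_right, hGc, ← hA, ← hC, ← hG, hD]
      field_simp
      ring
    have h1 : 0 < B (b - (G / A) • a) (b - (G / A) • a) := by
      rw [ht]
      exact div_pos_of_neg_of_neg hlt ha
    have h2 : B (b - (G / A) • a) w = 0 := by
      rw [B_sub_left, B_smul_left, hwa, hwb, mul_zero, sub_zero]
    exact mul_pos_of_neg_of_neg hlt (orth_time h1 h2 hw0)
  · -- degenerate plane
    set d := G • a - A • b with hd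
    have hd0 : d ≠ 0 := by
      intro h
      apply hlin (G / A)
      have h1 : A • b = G • a := (sub_eq_zero.1 h).symm
      rw [div_eq_inv_mul, mul_smul, ← h1, smul_smul, inv_mul_cancel₀ hA0, one_smul]
    have hdd : B d d = 0 := by
      rw [hd]
      simp only [B_sub_left, B_sub_right, B_smul_left, B_smul_right, hGc, ← hA, ← hC, ← hG]
      linear_combination A * heq
    have hda : B d a = 0 := by
      rw [hd]
      simp only [B_sub_left, B_smul_left, hGc, ← hA]
      ring
    have hdb : B d b = 0 := by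
      rw [hd]
      simp only [B_sub_left, B_smul_left, ← hG, ← hC]
      linear_combination -heq
    have hd00 := time_ne hdd.ge hd0
    rw [← B_e0 d] at hd00
    have hd1 : B e0 d = G * B e0 a - A * B e0 b := by
      rw [hd]
      simp only [B_sub_right, B_smul_right]
    set e' := e0 - (B e0 a / A) • a with he'
    have h1 : B e' a = 0 := by
      rw [he', B_sub_left, B_smul_left, ← hA]
      field_simp
      ring
    have h2 : B e' b = - B e0 d / A := by
      rw [he', B_sub_left, B_smul_left, ← hG, hd1]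
      field_simp
      ring
    have h3 : B e' b ≠ 0 := by
      rw [h2]
      exact div_ne_zero (neg_ne_zero.2 hd00) hA0
    set s := (C - G) / (2 * B e' b) with hs'
    set v0 := (1 / 2 : F) • a + s • e' with hv0
    have e1 : B v0 a = A / 2 := by
      rw [hv0, B_add_left, B_smul_left, B_smul_left, h1, ← hA]
      ring
    have e2 : B v0 b = C / 2 := by
      rw [hv0, B_add_left, B_smul_left, B_smul_left, ← hG, hs']
      field_simp
      ring
    have e3 : B v0 d = A * (G - C) / 2 := by
      rw [hd, B_sub_right, B_smul_right, B_smul_right, e1, e2]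
      ring
    have e4 : B v0 d ≠ 0 := by
      rw [e3]
      have : G - C ≠ 0 := by
        intro h
        have hGC : G = C := sub_eq_zero.1 h
        rw [hD, hGC] at heq
        have h5 : (A - C) * C = 0 := by linear_combination heq
        rcases mul_eq_zero.1 h5 with h6 | h6
        · have : A = C := sub_eq_zero.1 h6
          rw [hGC, this] at hs
          linarith
        · exact hb.ne h6
      exact div_ne_zero (mul_ne_zero hA0 this) two_ne_zero
    refine ⟨v0 + (- B v0 v0 / (2 * B v0 d)) • d, ?_, ?_, ?_⟩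
    · simp only [B_add_left, B_add_right, B_smul_left, B_smul_right, B_comm d v0, hdd]
      field_simp
      ring
    · rw [B_add_left, B_smul_left, e1, hda]
      ring
    · rw [B_add_left, B_smul_left, e2, hdb]
      ring
  · -- negative definite plane
    set x := B e0 a with hx
    set y := B e0 b with hy
    have hxc : B a e0 = x := B_comm a e0
    have hyc : B b e0 = y := B_comm b e0
    set c1 := (C * x - G * y) / D with hc1
    set c2 := (A * y - G * x) / D with hc2
    have hD0 : D ≠ 0 := hgt.ne'
    have f1 : c1 * A + c2 * G = x := by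
      rw [hc1, hc2]
      field_simp
      rw [hD]
      ring
    have f2 : c1 * G + c2 * C = y := by
      rw [hc1, hc2]
      field_simp
      rw [hD]
      ring
    refine nondeg hD0 ⟨e0 - c1 • a - c2 • b, ?_, ?_, ?_⟩
    · simp only [B_sub_right, B_smul_right, hxc, ← hA, ← hG]
      linear_combination -f1
    · simp only [B_sub_right, B_smul_right, hyc, hGc, ← hC]
      linear_combination -f2
    · apply mul_pos hgt
      have h1 : B (e0 - c1 • a - c2 • b) (e0 - c1 • a - c2 • b) = 1 - (c1 * x + c2 * y) := by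
        simp only [B_sub_left, B_sub_right, B_smul_left, B_smul_right, B_e0_e0, hxc, hyc, hGc,
          ← hA, ← hC, ← hG, ← hx, ← hy]
        linear_combination c1 * f1 + c2 * f2
      have h2 : c1 * x + c2 * y ≤ 0 := by
        have h3 : A * (D * (c1 * x + c2 * y)) = D * x ^ 2 + (G * x - A * y) ^ 2 := by
          rw [hc1, hc2]
          field_simp
          rw [hD]
          ring
        have h4 : 0 ≤ A * (D * (c1 * x + c2 * y)) := by
          rw [h3]
          positivity
        by_contra hlt
        have h5 := mul_pos hgt (not_le.1 hlt)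
        have h6 := mul_neg_of_neg_of_pos ha h5
        linarith
      rw [h1]
      linarith

/-! ### certificates for spacelike relatedness -/

/-- The property of the point `p` that certifies that `z, w` are spacelike related. -/
def Cert (z w p v : Fin (m + 1) → F) : Prop :=
  z ≠ w ∧ ¬ Light z w ∧ Light p z ∧ ((v = z ∨ v = p ∨ (Light v z ∧ Light v p)) → ¬ Light v w)

theorem light_iff (x y : Fin (m + 1) → F) : Light x y ↔ B (x - y) (x - y) = 0 ∧ x ≠ y := by
  unfold Light
  rw [mu_eq]

theorem cert_of_space (hm : 2 ≤ m) (hE : ∀ a : F, 0 ≤ a → IsSquare a) {z w : Fin (m + 1) → F}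
    (h : mu z w < 0) : ∃ p, ∀ v, Cert z w p v := by
  rw [mu_eq] at h
  obtain ⟨d, hd0, hdd, had⟩ := null_orth hm hE h
  refine ⟨z + d, fun v => ⟨?_, ?_, ?_, ?_⟩⟩
  · rintro rfl
    rw [sub_self, B_zero_left] at h
    exact lt_irrefl _ h
  · rw [light_iff]
    exact fun h' => h.ne h'.1
  · rw [light_iff, add_sub_cancel_left]
    exact ⟨hdd, fun h' => hd0 (by simpa using h')⟩
  · intro hv
    have hline : ∃ t : F, v = z + t • d := by
      rcases hv with rfl | rfl | ⟨h1, h2⟩
      · exact ⟨0, by rw [zero_smul, add_zero]⟩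
      · exact ⟨1, by rw [one_smul]⟩
      · rw [light_iff] at h1 h2
        have e : v - (z + d) = (v - z) - d := by abel
        rw [e] at h2
        have h3 := h2.1
        simp only [B_sub_left (v - z) d, B_sub_right (v - z) d] at h3
        rw [h1.1, hdd, B_comm d (v - z)] at h3
        obtain ⟨t, ht⟩ := parallel h1.1 hdd (by linarith) hd0
        exact ⟨t, by rw [← ht]; abel⟩
    obtain ⟨t, rfl⟩ := hline
    rw [light_iff]
    rintro ⟨h1, -⟩
    have e : z + t • d - w = (z - w) + t • d := by abel
    rw [e] at h1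
    simp only [B_add_left (z - w), B_add_right (z - w), B_smul_left, B_smul_right,
      B_comm d (z - w), had, hdd] at h1
    linarith

theorem space_of_cert {z w p : Fin (m + 1) → F} (h : ∀ v, Cert z w p v) : mu z w < 0 := by
  obtain ⟨h1, h2, h3, -⟩ := h z
  by_contra hlt
  rw [mu_eq] at hlt
  have hpos : 0 < B (z - w) (z - w) := by
    rcases lt_or_eq_of_le (not_lt.1 hlt) with h' | h'
    · exact h'
    · exact absurd ((light_iff _ _).2 ⟨h'.symm, h1⟩) h2
  rw [light_iff] at h3
  have hpz : p - z ≠ 0 := sub_ne_zero.2 h3.2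
  set d := p - z with hd
  have had : B (z - w) d ≠ 0 := by
    intro h'
    exact (orth_time hpos h' hpz).ne h3.1
  set t := - B (z - w) (z - w) / (2 * B (z - w) d) with ht
  have ht0 : t ≠ 0 := div_ne_zero (neg_ne_zero.2 hpos.ne') (mul_ne_zero two_ne_zero had)
  refine (h (z + t • d)).2.2.2 ?_ ?_
  · by_cases ht1 : t = 1
    · right; left
      rw [ht1, one_smul, hd]
      abel
    · right; right
      rw [light_iff, light_iff]
      refine ⟨⟨?_, ?_⟩, ?_, ?_⟩
      · rw [add_sub_cancel_left, B_smul_left, B_smul_right, h3.1]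
        ring
      · intro h'
        have : t • d = 0 := by simpa using h'
        exact (smul_ne_zero ht0 hpz) this
      · have e : z + t • d - p = (t - 1) • d := by
          rw [sub_smul, one_smul, hd]
          abel
        rw [e, B_smul_left, B_smul_right, h3.1]
        ring
      · intro h'
        have e : (t - 1) • d = 0 := by
          have h5 : t • d = p - z := eq_sub_of_add_eq' h'
          rw [sub_smul, one_smul, h5, sub_self]
        exact (smul_ne_zero (sub_ne_zero.2 ht1) hpz) e
  · rw [light_iff]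
    constructor
    · have e : z + t • d - w = (z - w) + t • d := by abel
      rw [e]
      simp only [B_add_left (z - w), B_add_right (z - w), B_smul_left, B_smul_right,
        B_comm d (z - w), h3.1]
      rw [ht]
      field_simp
      ring
    · intro h'
      have e : z - w = (-t) • d := by
        rw [neg_smul, ← h']
        abel
      rw [e, B_smul_left, B_smul_right, h3.1] at hpos
      simp at hpos

/-- For timelike related `x, y` there are two lightlike related points, both spacelike related to
`x` and `y`. -/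
theorem exists_pair (hm : 1 ≤ m) {x y : Fin (m + 1) → F} (h : 0 < mu x y) :
    ∃ u1 u2, Light u1 u2 ∧ mu x u1 < 0 ∧ mu y u1 < 0 ∧ mu x u2 < 0 ∧ mu y u2 < 0 := by
  obtain ⟨m, rfl⟩ := Nat.exists_eq_add_of_le' hm
  set e1 : Fin (m + 1 + 1) → F := Pi.single 1 1 with he1
  have B1 : ∀ a : Fin (m + 1 + 1) → F, B e1 a = - a 1 := by
    intro a
    unfold B
    rw [he1, Pi.single_eq_of_ne (by exact (Fin.succ_ne_zero 0).symm), zero_mul,
      Finset.sum_eq_single (0 : Fin (m + 1))]
    · simp
    · intro i _ hi
      rw [Pi.single_eq_of_ne, zero_mul]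
      intro h'
      exact hi (Fin.succ_injective _ (by simpa using h'))
    · simp
  have B11 : B e1 e1 = -1 := by rw [B1, he1, Pi.single_eq_same]
  have B01 : B e0 e1 = 0 := by
    rw [B_e0, he1, Pi.single_eq_of_ne]
    exact (Fin.succ_ne_zero 0).symm
  set a := y - x with ha
  have haa : 0 < B a a := by
    rw [mu_comm, mu_eq] at h
    exact h
  set s := 2 * |a 1| + |a 0| + B a a + 1 with hs
  have h1 : a 1 ≤ |a 1| := le_abs_self _
  have h2 : - a 1 ≤ |a 1| := neg_le_abs _
  have h3 : a 0 ≤ |a 0| := le_abs_self _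
  have h4 : - a 0 ≤ |a 0| := neg_le_abs _
  have h5 : 0 ≤ |a 1| := abs_nonneg _
  have h6 : 0 ≤ |a 0| := abs_nonneg _
  have hs1 : 1 < s := by linarith
  have c1 : B (s • e1) (s • e1) = - (s * s) := by
    rw [B_smul_left, B_smul_right, B11]
    ring
  have c2 : B (a - s • e1) (a - s • e1) = B a a + 2 * s * a 1 - s * s := by
    simp only [B_sub_left, B_sub_right, B_smul_left, B_smul_right, B_comm a e1, B1 a, B11]
    ring
  have c2' : B (a - s • e1) (a - s • e1) < 0 := by
    rw [c2]
    have : B a a + 1 ≤ s * (s - 2 * a 1) := by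
      calc B a a + 1 = 1 * (B a a + 1) := by ring
        _ ≤ s * (s - 2 * a 1) := by
          apply mul_le_mul hs1.le (by linarith) (by linarith) (by linarith)
    linarith
  refine ⟨x + s • e1, x + s • e1 + (e0 + e1), ?_, ?_, ?_, ?_, ?_⟩
  · rw [light_iff]
    have e : x + s • e1 - (x + s • e1 + (e0 + e1)) = - (e0 + e1) := by abel
    refine ⟨?_, ?_⟩
    · rw [e, B_neg_left, B_comm, B_neg_left, B_add_left, B_add_right, B_add_right, B_e0_e0, B01,
        B_comm e1, B01, B11]
      ring
    · intro h'
      have h7 : (e0 + e1 : Fin (m + 1 + 1) → F) = 0 := by simpa using h'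
      have h8 : B (e0 + e1 : Fin (m + 1 + 1) → F) e0 = 0 := by rw [h7, B_zero_left]
      rw [B_add_left, B_e0_e0, B_comm e1, B01] at h8
      simp at h8
  · rw [mu_eq]
    have e : x - (x + s • e1) = - (s • e1) := by abel
    rw [e, B_neg_left, B_comm, B_neg_left, c1]
    have : 0 < s * s := by positivity
    linarith
  · rw [mu_eq]
    have e : y - (x + s • e1) = a - s • e1 := by rw [ha]; abel
    rw [e]
    exact c2'
  · rw [mu_eq]
    have e : x - (x + s • e1 + (e0 + e1)) = - (s • e1 + (e0 + e1)) := by abel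
    rw [e, B_neg_left, B_comm, B_neg_left]
    simp only [B_add_left, B_add_right, B_smul_left, B_smul_right, B_e0_e0, B01, B_comm e1 e0, B11]
    have : 0 < s * s := by positivity
    linarith
  · rw [mu_eq]
    have e : y - (x + s • e1 + (e0 + e1)) = (a - s • e1) - (e0 + e1) := by rw [ha]; abel
    have e' : B ((a - s • e1) - (e0 + e1)) ((a - s • e1) - (e0 + e1)) =
        B (a - s • e1) (a - s • e1) - 2 * (a 0 - a 1 + s) := by
      simp only [B_sub_left (a - s • e1) (e0 + e1), B_sub_right (a - s • e1) (e0 + e1),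
        B_comm (a - s • e1) (e0 + e1)]
      simp only [B_add_left, B_add_right, B_sub_right, B_smul_right, B_e0_e0, B01, B_comm e1 e0,
        B11, B_e0 a, B1 a]
      ring
    rw [e, e']
    linarith

/-- The matrix of the defining formula, semantically. -/
def Mat (x y u1 u2 p1 p2 p3 p4 v : Fin (m + 1) → F) : Prop :=
  x ≠ y ∧ ¬ Light x y ∧ Light u1 u2 ∧ Cert x u1 p1 v ∧ Cert y u1 p2 v ∧ Cert x u2 p3 v ∧
    Cert y u2 p4 v ∧ ¬ (Light v x ∧ Light v y ∧ Light v u1) ∧
    ¬ (Light v x ∧ Light v y ∧ Light v u2)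

theorem main_iff (hm : 2 ≤ m) (hE : ∀ a : F, 0 ≤ a → IsSquare a) (x y : Fin (m + 1) → F) :
    (∃ u1 u2 p1 p2 p3 p4, ∀ v, Mat x y u1 u2 p1 p2 p3 p4 v) ↔ 0 < mu x y := by
  constructor
  · rintro ⟨u1, u2, p1, p2, p3, p4, h⟩
    have h0 := h x
    obtain ⟨hne, hnl, hu, -⟩ := h0
    by_contra hlt
    have hxy : mu x y < 0 := by
      rcases lt_or_eq_of_le (not_lt.1 hlt) with h' | h'
      · exact h'
      · exact absurd ⟨h', hne⟩ hnl
    have hx1 : mu x u1 < 0 := space_of_cert fun v => (h v).2.2.2.1
    have hy1 : mu y u1 < 0 := space_of_cert fun v => (h v).2.2.2.2.1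
    have hx2 : mu x u2 < 0 := space_of_cert fun v => (h v).2.2.2.2.2.1
    have hy2 : mu y u2 < 0 := space_of_cert fun v => (h v).2.2.2.2.2.2.1
    -- a point which is spacelike related to `x`, `y` and without common lightlike related point
    -- lies on the line `x y`
    have key : ∀ u, mu x u < 0 → mu y u < 0 →
        (∀ v, ¬ (Light v x ∧ Light v y ∧ Light v u)) → ∃ t : F, u - x = t • (y - x) := by
      intro u hxu hyu hn
      by_contra hcon
      push Not at hcon
      rw [mu_comm, mu_eq] at hxy hxu hyu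
      obtain ⟨v, h1, h2, h3⟩ := circum hm hE (a := y - x) (b := u - x) hxy hxu (by
        have e : (y - x) - (u - x) = - (u - y) := by abel
        rw [e, B_neg_left, B_comm, B_neg_left]
        linarith) hcon
      apply hn (x + v)
      simp only [light_iff]
      refine ⟨⟨?_, ?_⟩, ⟨?_, ?_⟩, ?_, ?_⟩
      · rw [add_sub_cancel_left]
        exact h1
      · intro h'
        have : v = 0 := by simpa using h'
        rw [this, B_zero_left] at h2
        linarith
      · have e : x + v - y = v - (y - x) := by abel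
        rw [e]
        simp only [B_sub_left v, B_sub_right v, B_comm (y - x) v]
        linear_combination h1 - h2
      · intro h'
        have e : v = y - x := by rw [← h']; abel
        rw [e] at h1
        exact hxy.ne h1
      · have e : x + v - u = v - (u - x) := by abel
        rw [e]
        simp only [B_sub_left v, B_sub_right v, B_comm (u - x) v]
        linear_combination h1 - h3
      · intro h'
        have e : v = u - x := by rw [← h']; abel
        rw [e] at h1
        exact hxu.ne h1
    obtain ⟨t1, ht1⟩ := key u1 hx1 hy1 fun v => (h v).2.2.2.2.2.2.2.1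
    obtain ⟨t2, ht2⟩ := key u2 hx2 hy2 fun v => (h v).2.2.2.2.2.2.2.2
    rw [light_iff] at hu
    have e : u1 - u2 = (t1 - t2) • (y - x) := by
      rw [sub_smul, ← ht1, ← ht2]
      abel
    rw [e, B_smul_left, B_smul_right] at hu
    rw [mu_comm, mu_eq] at hxy
    have h5 : t1 - t2 = 0 := by
      rcases mul_eq_zero.1 hu.1 with h5 | h5
      · exact h5
      · rcases mul_eq_zero.1 h5 with h6 | h6
        · exact h6
        · exact absurd h6 hxy.ne
    rw [h5, zero_smul] at e
    exact hu.2 (sub_eq_zero.1 e)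
  · intro h
    obtain ⟨u1, u2, hu, h1, h2, h3, h4⟩ := exists_pair (by omega) h
    obtain ⟨p1, hp1⟩ := cert_of_space hm hE h1
    obtain ⟨p2, hp2⟩ := cert_of_space hm hE h2
    obtain ⟨p3, hp3⟩ := cert_of_space hm hE h3
    obtain ⟨p4, hp4⟩ := cert_of_space hm hE h4
    refine ⟨u1, u2, p1, p2, p3, p4, fun v => ⟨?_, fun h' => h.ne' h'.1, hu, hp1 v, hp2 v, hp3 v,
      hp4 v, ?_, ?_⟩⟩
    · rintro rfl
      rw [mu_eq, sub_self, B_zero_left] at h
      exact lt_irrefl _ h
    · rintro ⟨g1, g2, g3⟩
      exact no_common h h1 h2 g1.1 g2.1 g3.1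
    · rintro ⟨g1, g2, g3⟩
      exact no_common h h3 h4 g1.1 g2.1 g3.1

end mink

/-! ### the formula -/

section formula

variable {V : Type}

/-- disjunction -/
def QF.or (φ ψ : QF V) : QF V := .not (.and (.not φ) (.not ψ))

/-- implication -/
def QF.imp (φ ψ : QF V) : QF V := .not (.and φ (.not ψ))

theorem holds_or {P : Type*} (R : P → P → Prop) (ρ : V → P) (φ ψ : QF V) :
    (QF.or φ ψ).Holds R ρ ↔ φ.Holds R ρ ∨ ψ.Holds R ρ := by
  simp only [QF.or, QF.Holds]
  tauto

theorem holds_imp {P : Type*} (R : P → P → Prop) (ρ : V → P) (φ ψ : QF V) :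
    (QF.imp φ ψ).Holds R ρ ↔ (φ.Holds R ρ → ψ.Holds R ρ) := by
  simp only [QF.imp, QF.Holds]
  tauto

/-- `z ≠ w ∧ ¬ z λ w ∧ p λ z ∧ ((v = z ∨ v = p ∨ (v λ z ∧ v λ p)) → ¬ v λ w)` -/
def cert (z w p v : V) : QF V :=
  .and (.not (.eq z w)) (.and (.not (.lam z w)) (.and (.lam p z)
    (.imp (.or (.eq v z) (.or (.eq v p) (.and (.lam v z) (.lam v p)))) (.not (.lam v w)))))

/-- the matrix of the formula -/
def matrix (x y u1 u2 p1 p2 p3 p4 v : V) : QF V :=
  .and (.not (.eq x y)) (.and (.not (.lam x y)) (.and (.lam u1 u2) (.and (cert x u1 p1 v)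
    (.and (cert y u1 p2 v) (.and (cert x u2 p3 v) (.and (cert y u2 p4 v)
      (.and (.not (.and (.lam v x) (.and (.lam v y) (.lam v u1))))
        (.not (.and (.lam v x) (.and (.lam v y) (.lam v u2)))))))))))

/-- the defining formula, with the prefix `∃⁶∀¹` -/
def phi : EAFormula where
  k := 6
  m := 1
  matrix := matrix (.inl 0) (.inl 1) (.inr (.inl 0)) (.inr (.inl 1)) (.inr (.inl 2))
    (.inr (.inl 3)) (.inr (.inl 4)) (.inr (.inl 5)) (.inr (.inr 0))

end formula

/-- There is one existential-universal formula in the language of lightlike relatedness (with the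
prefix `∃⁶∀¹`) that defines timelike relatedness in every Minkowski spacetime `F^n`, `n ≥ 3`, over
every Euclidean ordered field `F`. -/
theorem result : ∃ φ : EAFormula, φ.k = 6 ∧ φ.m = 1 ∧
    ∀ (F : Type u) [Field F] [LinearOrder F] [IsStrictOrderedRing F],
      (∀ a : F, 0 ≤ a → IsSquare a) → ∀ n : ℕ, 3 ≤ n + 1 → ∀ x y : Fin (n + 1) → F,
        φ.Holds Light x y ↔ Timelike x y := by
  refine ⟨phi, rfl, rfl, ?_⟩
  intro F _ _ _ hE n hn x y
  rw [Timelike, ← main_iff (by omega) hE x y]
  constructor
  · rintro ⟨(u : Fin 6 → Fin (n + 1) → F), hu⟩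
    refine ⟨u 0, u 1, u 2, u 3, u 4, u 5, fun v => ?_⟩
    have h := hu fun _ => v
    simpa [phi, matrix, cert, QF.Holds, holds_or, holds_imp, Mat, Cert] using h
  · rintro ⟨u1, u2, p1, p2, p3, p4, h⟩
    refine ⟨(![u1, u2, p1, p2, p3, p4] : Fin 6 → Fin (n + 1) → F),
      fun (v : Fin 1 → Fin (n + 1) → F) => ?_⟩
    have h' := h (v 0)
    simpa [phi, matrix, cert, QF.Holds, holds_or, holds_imp, Mat, Cert] using h'

end Pool.Agent.Results.MP_446ff5_lc.ExistsForall
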